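import Pool.Agent.Q61.MH.Stm

/-!
# Project MH, job CONC: the ratio `g j / base` is log-concave
-/

set_option autoImplicit false

open Real

noncomputable section

namespace Pool.Agent.Q54.MH

open Pool.Agent.Q61.MH

theorem S_pos {j : ℕ} (hj : 1 ≤ j) (r : ℝ) : 0 < S j r := by
  unfold S
  apply Finset.sum_pos
  · intro i _
    positivity
  · exact ⟨0, Finset.mem_range.2 (by omega)⟩

/-- Supporting line of `u ↦ u log (2 u / (u + 1))`. -/
theorem sup_h {x u : ℝ} (hx : 0 < x) (hu : 0 < u) :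
    x * log (2 * x / (x + 1)) + (log (2 * x / (x + 1)) + 1 - x / (x + 1)) * (u - x) ≤
      u * log (2 * u / (u + 1)) := by
  have h1 : 0 < 2 * x / (x + 1) := by positivity
  have h2 : 0 < 2 * u / (u + 1) := by positivity
  have h3 : 0 < (2 * u / (u + 1)) / (2 * x / (x + 1)) := by positivity
  have h4 := Real.one_sub_inv_le_log_of_pos h3
  rw [Real.log_div h2.ne' h1.ne'] at h4
  have h5 : ((2 * u / (u + 1)) / (2 * x / (x + 1)))⁻¹ = x * (u + 1) / ((x + 1) * u) := by
    field_simp
  rw [h5] at h4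
  have h6 := mul_le_mul_of_nonneg_left h4 hu.le
  have h7 : u * (1 - x * (u + 1) / ((x + 1) * u)) = u - x / (x + 1) * (u + 1) := by
    field_simp
  rw [h7] at h6
  have h8 : x / (x + 1) * (x + 1) = x := by field_simp
  have h9 : x * log (2 * x / (x + 1)) + (log (2 * x / (x + 1)) + 1 - x / (x + 1)) * (u - x) =
      u * log (2 * x / (x + 1)) + (u - x / (x + 1) * (u + 1)) := by
    have : x / (x + 1) * x = x - x / (x + 1) := by linarith
    linear_combination this
  rw [h9]
  linarith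

/-- Supporting line of the logarithm of the power sum. -/
theorem sup_L {j : ℕ} (hj : 1 ≤ j) (x : ℝ) : ∃ m : ℝ, ∀ u : ℝ,
    log (S j x) + m * (u - x) ≤ log (S j u) := by
  have hx := S_pos hj x
  refine ⟨(∑ i ∈ Finset.range j, ((i : ℝ) + 1) ^ x * log ((i : ℝ) + 1)) / S j x, fun u => ?_⟩
  obtain ⟨m, hm⟩ : ∃ m : ℝ, m = (∑ i ∈ Finset.range j, ((i : ℝ) + 1) ^ x * log ((i : ℝ) + 1)) /
    S j x := ⟨_, rfl⟩
  rw [← hm]
  have hm' : m * S j x = ∑ i ∈ Finset.range j, ((i : ℝ) + 1) ^ x * log ((i : ℝ) + 1) := by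
    rw [hm]
    exact div_mul_cancel₀ _ hx.ne'
  have h1 : exp (m * (u - x)) * S j x ≤ S j u := by
    have h2 : exp (m * (u - x)) * S j x = ∑ i ∈ Finset.range j, ((i : ℝ) + 1) ^ x *
        (exp (m * (u - x)) * (1 + ((u - x) * log ((i : ℝ) + 1) - m * (u - x)))) := by
      have h3 : ∑ i ∈ Finset.range j, ((i : ℝ) + 1) ^ x *
          (exp (m * (u - x)) * (1 + ((u - x) * log ((i : ℝ) + 1) - m * (u - x)))) =
          exp (m * (u - x)) * ((1 - m * (u - x)) * S j x + (u - x) *
            ∑ i ∈ Finset.range j, ((i : ℝ) + 1) ^ x * log ((i : ℝ) + 1)) := by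
        unfold S
        rw [Finset.mul_sum, Finset.mul_sum, ← Finset.sum_add_distrib, Finset.mul_sum]
        apply Finset.sum_congr rfl
        intro i _
        ring
      rw [h3, ← hm']
      ring
    rw [h2]
    unfold S
    apply Finset.sum_le_sum
    intro i _
    have hi : (0 : ℝ) < (i : ℝ) + 1 := by positivity
    have h3 : ((i : ℝ) + 1) ^ u = ((i : ℝ) + 1) ^ x * exp ((u - x) * log ((i : ℝ) + 1)) := by
      rw [Real.rpow_def_of_pos hi, Real.rpow_def_of_pos hi, ← Real.exp_add]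
      congr 1
      ring
    rw [h3]
    have h4 : exp ((u - x) * log ((i : ℝ) + 1)) =
        exp (m * (u - x)) * exp ((u - x) * log ((i : ℝ) + 1) - m * (u - x)) := by
      rw [← Real.exp_add]
      congr 1
      ring
    rw [h4]
    have h5 := Real.add_one_le_exp ((u - x) * log ((i : ℝ) + 1) - m * (u - x))
    have h6 : 0 < ((i : ℝ) + 1) ^ x := Real.rpow_pos_of_pos hi x
    apply mul_le_mul_of_nonneg_left _ h6.le
    apply mul_le_mul_of_nonneg_left _ (Real.exp_pos _).le
    linarith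
  have h2 := Real.log_le_log (mul_pos (Real.exp_pos _) hx) h1
  rw [Real.log_mul (Real.exp_pos _).ne' hx.ne', Real.log_exp] at h2
  linarith

theorem log_form {j : ℕ} (hj : 1 ≤ j) {C r : ℝ} (hC : 0 < C) (hr : 0 < r) :
    C * base r ≤ g j r ↔
      log C + r * log (2 * r / (r + 1)) + log (S j r) ≤ r * log (2 * (j : ℝ) - 1) := by
  have hS := S_pos hj r
  have hj1 : (1 : ℝ) ≤ j := by exact_mod_cast hj
  have hj2 : (0 : ℝ) < 2 * (j : ℝ) - 1 := by linarith
  have hb0 : 0 < 2 * r / (r + 1) := by positivity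
  have hb : 0 < base r := by
    unfold base
    exact Real.rpow_pos_of_pos hb0 r
  have hp : 0 < (2 * (j : ℝ) - 1) ^ r := Real.rpow_pos_of_pos hj2 r
  have hg : 0 < g j r := by
    unfold g
    positivity
  rw [← Real.log_le_log_iff (mul_pos hC hb) hg, Real.log_mul hC.ne' hb.ne']
  have e1 : log (base r) = r * log (2 * r / (r + 1)) := by
    unfold base
    rw [Real.log_rpow hb0]
  have e2 : log (g j r) = r * log (2 * (j : ℝ) - 1) - log (S j r) := by
    unfold g
    rw [Real.log_div hp.ne' hS.ne', Real.log_rpow hj2]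
  rw [e1, e2]
  constructor <;> intro h <;> linarith

theorem conc : S_conc := by
  intro j C a b r hj hC ha har hrb h1 h2
  have hr : 0 < r := lt_of_lt_of_le ha har
  have hb : 0 < b := lt_of_lt_of_le hr hrb
  rw [log_form hj hC ha] at h1
  rw [log_form hj hC hb] at h2
  rw [log_form hj hC hr]
  obtain ⟨m, hm⟩ := sup_L hj r
  obtain ⟨n, hn⟩ : ∃ n : ℝ, n = log (2 * r / (r + 1)) + 1 - r / (r + 1) := ⟨_, rfl⟩
  have a1 := sup_h hr ha
  have b1 := sup_h hr hb
  rw [← hn] at a1 b1
  have a2 := hm a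
  have b2 := hm b
  rcases le_total 0 (m + n - log (2 * (j : ℝ) - 1)) with h | h
  · have h3 : 0 ≤ (m + n - log (2 * (j : ℝ) - 1)) * (b - r) := mul_nonneg h (by linarith)
    nlinarith
  · have h3 : 0 ≤ (m + n - log (2 * (j : ℝ) - 1)) * (a - r) :=
      mul_nonneg_of_nonpos_of_nonpos h (by linarith)
    nlinarith

end Pool.Agent.Q54.MH
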